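import Pool.Agent.H17.VS.TargetsB

/-!
# UVM: membership in the space of velocities
-/

set_option autoImplicit false

namespace Pool.Agent.H1.VS

open MvPolynomial SC Pool.Agent.H27.LV Pool.Agent.H17.VG Pool.Agent.H17.CI Pool.Agent.H17.VS

theorem pf_UVM (hSM : T_SMV) : T_UVM := by
  intro R K _ _ _ n ι F x W w
  have hlin := fun (θ θ' : Derivation R K K) (l l' : ι → K) (a b : K) =>
    (hSM R K n ι (fun _ => 0) F θ θ' l l' a b x).1
  have hz : smb F (0 : Derivation R K K) (0 : ι → K) = 0 := by
    have h := hlin 0 0 0 0 0 0
    simpa using h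
  constructor
  · intro hw
    unfold UV at hw
    induction hw using Submodule.span_induction with
    | mem u hu => exact hu
    | zero => exact ⟨0, 0, by rw [hz]; exact W.zero_mem, by funext i; simp⟩
    | add u v _ _ hu hv =>
      obtain ⟨θ, l, h1, rfl⟩ := hu
      obtain ⟨θ', l', h2, rfl⟩ := hv
      refine ⟨θ + θ', l + l', ?_, ?_⟩
      · have h := hlin θ θ' l l' 1 1
        simp only [one_smul] at h
        rw [h]
        exact W.add_mem h1 h2
      · funext i
        simp
    | smul a u _ hu =>
      obtain ⟨θ, l, h1, rfl⟩ := hu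
      refine ⟨a • θ, a • l, ?_, ?_⟩
      · have h := hlin θ 0 l 0 a 0
        simp only [zero_smul, add_zero] at h
        rw [h]
        exact W.smul_mem a h1
      · funext i
        simp
  · intro h
    exact Submodule.subset_span h

end Pool.Agent.H1.VS
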